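import Pool.Agent.Helper49_RK.Final

/-!
# Part (c) of Q1: not every real is `rK`-reducible to a `1`-random real

There is a real `A` such that no Martin-Loef random real `Z` satisfies `A ≤_rK Z`.
-/

namespace Pool.Agent.Results.MP_b43e09_lc.NotRKBelowRandom

open Helper49_RK

theorem result : ∃ A : ℕ → Bool, ∀ Z : ℕ → Bool, MLRandom Z → ¬ RKReducible A Z :=
  exists_not_rK

end Pool.Agent.Results.MP_b43e09_lc.NotRKBelowRandom
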