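import Pool.Agent.Helper14_UG.Final

/-!
# Which reals are below a random real in the sense of `K` or of `C`

The definitions used in the statement are in `Pool.Agent.Helper14_UG.Defs` and in
`Pool.Agent.Helper49_RK.Defs`.
-/

namespace Pool.Agent.Results.MP_b43e09_lc.UniformOrGeneric

open Helper49_RK Helper14_UG

/-- For `U` an optimal plain machine (part (b), `≤_C`) or an optimal prefix-free machine (part (a),
`≤_K`), the following are equivalent: every real is below some `1`-random real; every limit
computable real is; the set of the reals which are is not meagre; there are `c` and `d` such that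
every finite string `σ` has a partner `τ` of the same length with
`comp U (σ ↾ m) ≤ comp U (τ ↾ m) + c` and `m ≤ K (τ ↾ m) + d` for all `m ≤ |σ|`. -/
theorem result (U V : List Bool →. List Bool) (hU : OptimalPlain U ∨ OptimalPrefixFree U)
    (hV : OptimalPrefixFree V) :
    List.TFAE [∀ A : ℕ → Bool, BelowRandom U A,
      ∀ A : ℕ → Bool, LimitComputable A → BelowRandom U A,
      ¬ IsMeagre {A : ℕ → Bool | BelowRandom U A},
      ∃ c d : ℕ, ∀ σ : List Bool, ∃ τ : List Bool, τ.length = σ.length ∧ ∀ m ≤ σ.length,
        comp U (σ.take m) ≤ comp U (τ.take m) + c ∧ (m : ℕ∞) ≤ comp V (τ.take m) + d] :=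
  main hU.symm hV

end Pool.Agent.Results.MP_b43e09_lc.UniformOrGeneric
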